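import Pool.Agent.N743.SS.Gomp

/-!
# `ζ(3)`, `ζ(3) / π³` and Euler's constant: the scales of the algebraic approximations

Two sorts of families of real numbers are considered.

* For a real number `t ≠ 0` the numbers `t π^k`, `k ∈ ℤ`. For `t = ζ(3)` two of them are `ζ(3)` and
  `ζ(3) / π³`.
* For a rational number `q > 0` and `l ≥ 1` the numbers `e^(jq) M_l(q)` and `e^(kq) δ_l(q)`,
  `j, k ∈ ℤ`, with `M_l(q) = ∫_0^∞ (log q - log t)^l e^(-t) dt` and
  `δ_l(q) = ∫_0^∞ log (1 + s / q)^l e^(-s) ds`. Here `M_1(q) = γ + log q`,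
  `M_3(1) = γ³ + γ π² / 2 + 2 ζ(3)`, and `δ_1(1)` is the Euler-Gompertz constant.

A number `u` is near at the scale `X` (with parameters `d` and `θ`) if some nonzero integer
polynomial of degree at most `d` with coefficients at most `X^θ` has at `u` a value at most `1 / X`.
For every finite subfamily, every degree `d` and every `m > 1` the following scale dichotomy is
proved, for all small `θ > 0`.

* At every large scale at most one of the numbers is near.
* If one of the numbers is algebraic of degree at most `d`, it is near at all large scales and the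
  others are near at no large scale.
* Otherwise every large scale `X` at which one of the numbers is near is followed by a scale `Z ≥ X`
  such that only this number is near between `X` and `Z` and none of the numbers is near between
  `Z` and `Z^m`; and there are arbitrarily large `Z` such that none of the numbers is near between
  `Z` and `Z^m`.

The proof combines theorems of the starting library: the joint measures for these families
(`Pool.Agent.N743.SS.joint_fam`, which uses Shidlovskii's theorem in a quantitative form, and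
`Pool.Agent.R473.JC.joint_powers`, which uses the transcendence measure of `π`) and the engine of the
scale dichotomy for algebraic approximations (`Pool.Agent.N743.dichotomy_alg`).
-/

set_option autoImplicit false

namespace Pool.Agent.Results.MP_e48a95_nt.AlgebraicScales

open Finset Polynomial MeasureTheory Set
open Pool.Agent.N743 (Dichotomy)
open Pool.Agent.R356 (JointR)

/-- `ζ(3) = ∑ 1 / (n + 1)^3` -/
noncomputable def zeta3 : ℝ := ∑' n : ℕ, 1 / ((n : ℝ) + 1) ^ 3

/-- `M_l(q) = ∫_0^∞ (log q - log t)^l e^(-t) dt` -/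
noncomputable def M (l : ℕ) (q : ℝ) : ℝ :=
  ∫ t in Ioi (0 : ℝ), (Real.log q - Real.log t) ^ l * Real.exp (-t)

/-- `δ_l(q) = ∫_0^∞ log (1 + s / q)^l e^(-s) ds` -/
noncomputable def δ (l : ℕ) (q : ℝ) : ℝ :=
  ∫ s in Ioi (0 : ℝ), Real.log (1 + s / q) ^ l * Real.exp (-s)

/-- the numbers `e^(j q) M_l(q)` (indexed by `(true, j)`) and `e^(j q) δ_l(q)` (indexed by
`(false, j)`) -/
noncomputable def fam (l : ℕ) (q : ℝ) (p : Bool × ℤ) : ℝ :=
  Real.exp (p.2 * q) * (if p.1 then M l q else δ l q)

/-- `u` is algebraic of degree at most `d` -/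
def AlgDeg (d : ℕ) (u : ℝ) : Prop := ∃ P : ℤ[X], P ≠ 0 ∧ P.natDegree ≤ d ∧ aeval u P = 0

/-- some nonzero integer polynomial of degree at most `d` with coefficients at most `X ^ θ` in
absolute value has at `u` a value at most `1 / X` in absolute value -/
def AlgNear (d : ℕ) (θ X u : ℝ) : Prop :=
  ∃ P : ℤ[X], P ≠ 0 ∧ P.natDegree ≤ d ∧ (∀ k, |((P.coeff k : ℤ) : ℝ)| ≤ X ^ θ) ∧
    |aeval u P| ≤ X⁻¹

/-- For every `d` and every `m > 1` there is `θ₀ > 0` such that for all positive `θ ≤ θ₀` the scale
dichotomy holds for the numbers `x i` (good: algebraic of degree at most `d`; near at the scale `X`: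
see `AlgNear`). -/
def Scales {ι : Type} (x : ι → ℝ) : Prop :=
  ∀ (d : ℕ) (m : ℝ), 1 < m → ∃ θ₀ : ℝ, 0 < θ₀ ∧ ∀ θ : ℝ, 0 < θ → θ ≤ θ₀ →
    Dichotomy (fun i => AlgDeg d (x i)) (fun X i => AlgNear d θ X (x i)) m

lemma scales_of_joint {ι : Type} [Finite ι] (x : ι → ℝ)
    (h : ∀ i j, i ≠ j → JointR (x i) (x j)) : Scales x :=
  fun d m hm => Pool.Agent.N743.dichotomy_alg x h d m hm

/-- **Algebraic approximations at all scales.**

(1) The scale dichotomy holds for every finite family of distinct numbers `t π^k`, `k ∈ ℤ`, `t ≠ 0`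
real; for instance for `ζ(3)` and `ζ(3) / π³`.

(2) It holds, for rational `q > 0` and `l ≥ 1`, for every finite family of numbers `e^(jq) M_l(q)`
and `e^(kq) δ_l(q)` with distinct indices, provided that `M_l(q) ≠ 0` or at most one of the numbers
is of the first kind.

(3) `M_1(q) = γ + log q`, `M_1(1) = γ ≠ 0`, and `M_3(1) = γ³ + γ π² / 2 + 2 ζ(3) ≠ 0`. -/
theorem result :
    ((∀ t : ℝ, t ≠ 0 → ∀ (n : ℕ) (k : Fin n → ℤ), Function.Injective k →
        Scales fun i => t * Real.pi ^ k i) ∧
      Scales ![zeta3, zeta3 / Real.pi ^ 3]) ∧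
    (∀ (q : ℚ) (l : ℕ), 0 < q → 1 ≤ l → ∀ (n : ℕ) (b : Fin n → Bool × ℤ), Function.Injective b →
      (M l q ≠ 0 ∨ ∀ i i', (b i).1 = true → (b i').1 = true → i = i') →
      Scales fun i => fam l q (b i)) ∧
    ((∀ q : ℝ, M 1 q = Real.eulerMascheroniConstant + Real.log q) ∧ M 1 1 ≠ 0 ∧
      M 3 1 = Real.eulerMascheroniConstant ^ 3 + Real.eulerMascheroniConstant * Real.pi ^ 2 / 2 +
        2 * zeta3 ∧ M 3 1 ≠ 0) := by
  have hz3pos : 0 < zeta3 := by
    unfold zeta3
    have hs : Summable fun n : ℕ => 1 / ((n : ℝ) + 1) ^ 3 := by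
      have h := (summable_nat_add_iff 1).2 (Real.summable_one_div_nat_pow.2 (by norm_num : 1 < 3))
      refine h.congr fun n => ?_
      push_cast
      rfl
    have h0 : ∀ n : ℕ, 0 ≤ 1 / ((n : ℝ) + 1) ^ 3 := fun n => by positivity
    have h1 := hs.le_tsum 0 fun n _ => h0 n
    refine lt_of_lt_of_le ?_ h1
    norm_num
  have hγ : 0 < Real.eulerMascheroniConstant := by
    have := Real.one_half_lt_eulerMascheroniConstant
    linarith
  have hM1 : ∀ q : ℝ, M 1 q = Real.eulerMascheroniConstant + Real.log q :=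
    fun q => Pool.Agent.N743.SS.mom_one q
  have hM3 : M 3 1 = Real.eulerMascheroniConstant ^ 3 +
      Real.eulerMascheroniConstant * Real.pi ^ 2 / 2 + 2 * zeta3 := Pool.Agent.N743.SS.mom_three
  have hM11 : M 1 1 = Real.eulerMascheroniConstant := by rw [hM1, Real.log_one, add_zero]
  have part1 : ∀ t : ℝ, t ≠ 0 → ∀ (n : ℕ) (k : Fin n → ℤ), Function.Injective k →
      Scales fun i => t * Real.pi ^ k i := by
    intro t ht n k hk
    refine scales_of_joint _ fun i j hij => ?_
    exact Pool.Agent.R473.JC.joint_powers Real.pi Pool.Agent.TH456.TM.measT_pi t ht _ _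
      fun h => hij (hk h)
  refine ⟨⟨part1, ?_⟩, ?_, hM1, ?_, hM3, ?_⟩
  · have hk : Function.Injective (![0, -3] : Fin 2 → ℤ) := by
      intro i j h
      fin_cases i <;> fin_cases j <;> simp_all
    have h := part1 zeta3 hz3pos.ne' 2 ![0, -3] hk
    have e : (fun i => zeta3 * Real.pi ^ (![0, -3] : Fin 2 → ℤ) i) =
        ![zeta3, zeta3 / Real.pi ^ 3] := by
      funext i
      fin_cases i
      · simp
      · show zeta3 * Real.pi ^ (-3 : ℤ) = zeta3 / Real.pi ^ 3
        rw [div_eq_mul_inv]
        congr 1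
    rwa [e] at h
  · intro q l hq hl n b hb h0
    refine scales_of_joint _ fun i j hij => ?_
    exact Pool.Agent.N743.SS.joint_fam l hl q hq b hb h0 i j hij
  · rw [hM11]; exact hγ.ne'
  · rw [hM3]
    have := Real.pi_pos
    positivity

end Pool.Agent.Results.MP_e48a95_nt.AlgebraicScales
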