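import Pool.Agent.U455.JA
import Pool.Agent.N743.SS.Gomp

/-!
# `ζ(3)`, `ζ(3) / π³` and Euler's constant: blocks of digits and finite automata, at all scales

Two sorts of families of real numbers are considered.

* For a real number `t ≠ 0` the numbers `t π^k`, `k ∈ ℤ`. For `t = ζ(3)` two of them are `ζ(3)` and
  `ζ(3) / π³`.
* For a rational number `q > 0` and `l ≥ 1` the numbers `e^(jq) M_l(q)` and `e^(kq) δ_l(q)`,
  `j, k ∈ ℤ`, with `M_l(q) = ∫_0^∞ (log q - log t)^l e^(-t) dt` and
  `δ_l(q) = ∫_0^∞ log (1 + s / q)^l e^(-s) ds`. Here `M_1(q) = γ + log q`,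
  `M_3(1) = γ³ + γ π² / 2 + 2 ζ(3)`, and `δ_1(1)` is the Euler-Gompertz constant.

Blocks: the first `N` digits of a number in base `b` are covered by `s` blocks (one digit may be omitted between
two blocks), and every block `d_(u+1), …, d_v` satisfies an algebraic relation of its own, of degree at most `r`
in `D(X) = d_(u+1) X + ⋯ + d_v X^(v-u)` with coefficients of degree at most `k` in `X`. Automata: an
automaton with `Q` states reads the digits one after the other and predicts each next digit from its state.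
The digits of a rational number form one block with `r = 1` and bounded `k`, and are predicted by an
automaton with finitely many errors.

For any two of the numbers `x`, `y`, for all bases `β`, `β'`, all lengths and all `k`, `k'`, `s`, `s'`

`min (N log β, N' log β') ≤ A^(s+s') ((k+1) log β + (k'+1) log β')`

if the first `N` digits of `x` in base `β` and the first `N'` digits of `y` in base `β'` are covered by `s`
and `s'` such blocks; the same with `E + E' + 2` in place of `s + s'` for two automata with `k` and `k'`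
states which make `E` and `E'` errors. Hence at every large scale `Z` the digits of all but at most one of
finitely many of the numbers are rough: in no base `b` are the first `N` digits, `N log b ≥ Z`, covered by
at most `c log Z` blocks with `(k + 1) log b ≤ Z^θ` (`θ < 1`), or predicted by an automaton with `k`
states, `(k + 1) log b ≤ Z^θ`, with at most `c log Z` errors.

The proof: multiplied by `b^u` a number turns a relation for a block of its digits, from the
`(u+1)`-st to the `v`-th, into an integer polynomial of bounded degree which is small at the number. Two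
such polynomials contradict the joint measure of the two numbers (starting library:
`Pool.Agent.N743.SS.joint_fam`, `Pool.Agent.R473.JC.joint_powers`); then induction on the number of blocks
(`Pool.Agent.U455.JB.blocks2`).

-/

set_option autoImplicit false

namespace Pool.Agent.Results.MP_e48a95_nt.DigitBlocks

open Polynomial
open MeasureTheory Set

/-- `ζ(3) = ∑ 1 / (n + 1)^3` -/
noncomputable def zeta3 : ℝ := ∑' n : ℕ, 1 / ((n : ℝ) + 1) ^ 3

/-- `M_l(q) = ∫_0^∞ (log q - log t)^l e^(-t) dt` -/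
noncomputable def M (l : ℕ) (q : ℝ) : ℝ :=
  ∫ t in Ioi (0 : ℝ), (Real.log q - Real.log t) ^ l * Real.exp (-t)

/-- `δ_l(q) = ∫_0^∞ log (1 + s / q)^l e^(-s) ds` -/
noncomputable def δ (l : ℕ) (q : ℝ) : ℝ :=
  ∫ s in Ioi (0 : ℝ), Real.log (1 + s / q) ^ l * Real.exp (-s)

/-- the numbers `e^(j q) M_l(q)` (indexed by `(true, j)`) and `e^(j q) δ_l(q)` (indexed by
`(false, j)`) -/
noncomputable def fam (l : ℕ) (q : ℝ) (p : Bool × ℤ) : ℝ :=
  Real.exp (p.2 * q) * (if p.1 then M l q else δ l q)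

/-- the `i`-th digit of `x` after the point in base `b` -/
noncomputable def digit (b : ℕ) (x : ℝ) (i : ℕ) : ℤ := ⌊x * (b : ℝ) ^ i⌋ % (b : ℤ)

/-- the polynomial `d_(u+1) X + ⋯ + d_v X^(v-u)`, where `d_i` is the `i`-th digit of `x` -/
noncomputable def blockPoly (b : ℕ) (x : ℝ) (u v : ℕ) : ℚ[X] :=
  ∑ l ∈ Finset.Icc 1 (v - u), C (digit b x (u + l) : ℚ) * X ^ l

/-- there is a nonzero polynomial `P(X, Y)` over `ℚ` of degree `≤ r` in `Y` and `≤ k` in `X` such
that `P(X, D(X))` is divisible by `X^(v-u+1)`, where `D(X) = d_(u+1) X + ⋯ + d_v X^(v-u)` -/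
def AlgRelation (b : ℕ) (x : ℝ) (r u v k : ℕ) : Prop :=
  ∃ P : ℚ[X][X], P ≠ 0 ∧ P.natDegree ≤ r ∧ (∀ j, (P.coeff j).natDegree ≤ k) ∧
    X ^ (v - u + 1) ∣ P.eval (blockPoly b x u v)

/-- The first `N` digits of `x` in base `b` are covered by `s` blocks, from the `(u_i + 1)`-st to the
`v_i`-th digit, `i < s`, where `u_0 = 0`, `u_s = N` and `u_(i+1) ≤ v_i + 1` (one digit may be omitted
between two blocks), and every block satisfies an algebraic relation of degree at most `r` with
coefficients of degree at most `k` (each block one of its own). -/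
def Blocks (b : ℕ) (x : ℝ) (r k s N : ℕ) : Prop :=
  ∃ u v : ℕ → ℕ, u 0 = 0 ∧ u s = N ∧
    ∀ i < s, u i ≤ v i ∧ u (i + 1) ≤ v i + 1 ∧ AlgRelation b x r (u i) (v i) k

/-- the state of the automaton with transitions `δ` and initial state `q₀` after it has read
`d 1, …, d n` -/
def run {Q : ℕ} (δ : Fin Q → ℤ → Fin Q) (q₀ : Fin Q) (d : ℕ → ℤ) : ℕ → Fin Q
  | 0 => q₀
  | n + 1 => δ (run δ q₀ d n) (d (n + 1))

/-- the number of errors of the automaton on `d 1, …, d N`: the number of `n < N` such that the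
prediction `out` of the state after `d 1, …, d n` is not `d (n + 1)` -/
def errors {Q : ℕ} (δ : Fin Q → ℤ → Fin Q) (q₀ : Fin Q) (out : Fin Q → ℤ) (d : ℕ → ℤ) (N : ℕ) : ℕ :=
  ((Finset.range N).filter fun n => out (run δ q₀ d n) ≠ d (n + 1)).card

/-- the joint lower bound for blocks with relations of degree at most `r` -/
def BlockBound (A : ℝ) (r : ℕ) (x y : ℝ) : Prop :=
  ∀ β β' : ℕ, 2 ≤ β → 2 ≤ β' → ∀ k k' s s' N N' : ℕ, Blocks β x r k s N → Blocks β' y r k' s' N' →
    min (N * Real.log β) (N' * Real.log β') ≤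
      A ^ (s + s') * ((k + 1) * Real.log β + (k' + 1) * Real.log β')

/-- the joint lower bound for automata -/
def AutomatonBound (A : ℝ) (x y : ℝ) : Prop :=
  ∀ β β' : ℕ, 2 ≤ β → 2 ≤ β' → ∀ (Q Q' : ℕ) (δ : Fin Q → ℤ → Fin Q) (q₀ : Fin Q)
    (out : Fin Q → ℤ) (δ' : Fin Q' → ℤ → Fin Q') (q₀' : Fin Q') (out' : Fin Q' → ℤ) (N N' : ℕ),
    min (N * Real.log β) (N' * Real.log β') ≤
      A ^ (errors δ q₀ out (digit β x) N + errors δ' q₀' out' (digit β' y) N' + 2) *
        ((Q + 1) * Real.log β + (Q' + 1) * Real.log β')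

/-- The digits of `x` are simple at the scale `Z`, in the sense of blocks: for some base `b`, the
first `N` digits, `N log b ≥ Z`, are covered by `s ≤ c log Z` blocks with algebraic relations of degree
at most `r` with coefficients of degree at most `k`, where `(k + 1) log b ≤ Z^θ`. -/
def Simple (r : ℕ) (θ c Z x : ℝ) : Prop :=
  ∃ b N k s : ℕ, 2 ≤ b ∧ Z ≤ N * Real.log b ∧ (k + 1) * Real.log b ≤ Z ^ θ ∧
    (s : ℝ) ≤ c * Real.log Z ∧ Blocks b x r k s N

/-- The digits of `x` are predictable at the scale `Z`: for some base `b` an automaton with `Q` states,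
`(Q + 1) log b ≤ Z^θ`, makes at most `c log Z` errors on the first `N` digits, `N log b ≥ Z`. -/
def Predictable (θ c Z x : ℝ) : Prop :=
  ∃ b N Q : ℕ, 2 ≤ b ∧ Z ≤ N * Real.log b ∧ (Q + 1) * Real.log b ≤ Z ^ θ ∧
    ∃ (δ : Fin Q → ℤ → Fin Q) (q₀ : Fin Q) (out : Fin Q → ℤ),
      (errors δ q₀ out (digit b x) N : ℝ) ≤ c * Real.log Z

/-- The three statements for the digits of finitely many numbers `x i`:
for every `r` the joint lower bound `BlockBound` for any two of them, with one constant; the joint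
lower bound `AutomatonBound`; and for every `r` and `θ < 1` there is `c > 0` such that at every large
scale the digits of at most one of the numbers are simple, and those of at most one of the numbers
are predictable. -/
def JointlyComplex {n : ℕ} (x : Fin n → ℝ) : Prop :=
  (∀ r : ℕ, ∃ A : ℝ, 1 ≤ A ∧ ∀ i j, i ≠ j → BlockBound A r (x i) (x j)) ∧
  (∃ A : ℝ, 1 ≤ A ∧ ∀ i j, i ≠ j → AutomatonBound A (x i) (x j)) ∧
  (∀ (r : ℕ) (θ : ℝ), θ < 1 → ∃ c Z₀ : ℝ, 0 < c ∧ ∀ Z : ℝ, Z₀ ≤ Z →
    (∀ i j, Simple r θ c Z (x i) → Simple r θ c Z (x j) → i = j) ∧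
    (∀ i j, Predictable θ c Z (x i) → Predictable θ c Z (x j) → i = j))

theorem brel_of_alg {b : ℕ} {x : ℝ} {r u v k : ℕ} (h : AlgRelation b x r u v k) :
    Pool.Agent.U455.JB.BRel b x r u v k := by
  obtain ⟨P, hP0, hPr, hPk, hX⟩ := h
  refine ⟨fun j => P.coeff j, ?_, fun j => hPk j, ?_⟩
  · intro h0
    apply hP0
    ext1 j
    by_cases hj : j < r + 1
    · have := congrFun h0 ⟨j, hj⟩
      simpa using this
    · rw [coeff_eq_zero_of_natDegree_lt (by omega), coeff_zero]
  · rw [eval_eq_sum_range' (show P.natDegree < r + 1 by omega), Finset.sum_range] at hX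
    exact hX

theorem blk {b : ℕ} {x : ℝ} {r k s N : ℕ} (h : Blocks b x r k s N) :
    Pool.Agent.U455.JF.Blk b x r k s N := by
  obtain ⟨u, v, hu, hs, h⟩ := h
  exact ⟨u, v, hu, hs, fun i hi => ⟨(h i hi).1, (h i hi).2.1, brel_of_alg (h i hi).2.2⟩⟩

theorem run_eq {Q : ℕ} (δ : Fin Q → ℤ → Fin Q) (q₀ : Fin Q) (d : ℕ → ℤ) (n : ℕ) :
    run δ q₀ d n = Pool.Agent.R473.FP.run δ q₀ d n := by
  induction n with
  | zero => rfl
  | succ n ih =>
    change δ (run δ q₀ d n) (d (n + 1)) = δ (Pool.Agent.R473.FP.run δ q₀ d n) (d (n + 1))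
    rw [ih]

theorem errors_eq {Q : ℕ} (δ : Fin Q → ℤ → Fin Q) (q₀ : Fin Q) (out : Fin Q → ℤ) (d : ℕ → ℤ)
    (N : ℕ) : errors δ q₀ out d N = Pool.Agent.R473.FP.errors δ q₀ out d N := by
  unfold errors Pool.Agent.R473.FP.errors
  simp only [run_eq]

theorem jointlyComplex {n : ℕ} (x : Fin n → ℝ)
    (h : ∀ i j, i ≠ j → Pool.Agent.R356.JointR (x i) (x j)) : JointlyComplex x := by
  refine ⟨fun r => ?_, ?_, fun r θ hθ => ?_⟩
  · obtain ⟨A, hA, H⟩ := Pool.Agent.U455.JF.blocks_fam x h r
    exact ⟨A, hA, fun i j hij β β' hβ hβ' k k' s s' N N' h1 h2 =>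
      H i j hij β β' hβ hβ' k k' s s' N N' (blk h1) (blk h2)⟩
  · obtain ⟨A, hA, H⟩ := Pool.Agent.U455.JF.fs_fam x h
    refine ⟨A, hA, fun i j hij β β' hβ hβ' Q Q' δ q₀ out δ' q₀' out' N N' => ?_⟩
    rw [errors_eq, errors_eq]
    exact H i j hij β β' hβ hβ' Q Q' δ q₀ out δ' q₀' out' N N'
  · obtain ⟨c, Z₀, hc, -, H⟩ := Pool.Agent.U455.JF.large_fam x h r θ hθ
    refine ⟨c, Z₀, hc, fun Z hZ => ⟨fun i j hi hj => (H Z hZ).1 i j ?_ ?_,
      fun i j hi hj => (H Z hZ).2 i j ?_ ?_⟩⟩
    · obtain ⟨b, N, k, s, h1, h2, h3, h4, h5⟩ := hi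
      exact ⟨b, N, k, s, h1, h2, h3, h4, blk h5⟩
    · obtain ⟨b, N, k, s, h1, h2, h3, h4, h5⟩ := hj
      exact ⟨b, N, k, s, h1, h2, h3, h4, blk h5⟩
    · obtain ⟨b, N, Q, h1, h2, h3, δ, q₀, out, h4⟩ := hi
      rw [errors_eq] at h4
      exact ⟨b, N, Q, h1, h2, h3, δ, q₀, out, h4⟩
    · obtain ⟨b, N, Q, h1, h2, h3, δ, q₀, out, h4⟩ := hj
      rw [errors_eq] at h4
      exact ⟨b, N, Q, h1, h2, h3, δ, q₀, out, h4⟩

/-- **The digits of `ζ(3)`, `ζ(3) / π³` and Euler's constant.**

(1) The numbers `t π^(k i)`, `k i` distinct integers, `t ≠ 0` real, are jointly complex; for instance `ζ(3)`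
and `ζ(3) / π³`.

(2) So are, for rational `q > 0` and `l ≥ 1`, the numbers `e^(jq) M_l(q)` and `e^(kq) δ_l(q)` with distinct
indices, provided that `M_l(q) ≠ 0` or at most one of the numbers is of the first kind.

(3) `M_1(q) = γ + log q`, `M_1(1) = γ ≠ 0`, and `M_3(1) = γ³ + γ π² / 2 + 2 ζ(3) ≠ 0`. -/
theorem result :
    ((∀ t : ℝ, t ≠ 0 → ∀ (n : ℕ) (k : Fin n → ℤ), Function.Injective k →
        JointlyComplex fun i => t * Real.pi ^ k i) ∧
      JointlyComplex ![zeta3, zeta3 / Real.pi ^ 3]) ∧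
    (∀ (q : ℚ) (l : ℕ), 0 < q → 1 ≤ l → ∀ (n : ℕ) (b : Fin n → Bool × ℤ), Function.Injective b →
      (M l q ≠ 0 ∨ ∀ i i', (b i).1 = true → (b i').1 = true → i = i') →
      JointlyComplex fun i => fam l q (b i)) ∧
    ((∀ q : ℝ, M 1 q = Real.eulerMascheroniConstant + Real.log q) ∧ M 1 1 ≠ 0 ∧
      M 3 1 = Real.eulerMascheroniConstant ^ 3 + Real.eulerMascheroniConstant * Real.pi ^ 2 / 2 +
        2 * zeta3 ∧ M 3 1 ≠ 0) := by
  have hz3pos : 0 < zeta3 := by
    unfold zeta3
    have hs : Summable fun n : ℕ => 1 / ((n : ℝ) + 1) ^ 3 := by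
      have h := (summable_nat_add_iff 1).2 (Real.summable_one_div_nat_pow.2 (by norm_num : 1 < 3))
      refine h.congr fun n => ?_
      push_cast
      rfl
    have h0 : ∀ n : ℕ, 0 ≤ 1 / ((n : ℝ) + 1) ^ 3 := fun n => by positivity
    have h1 := hs.le_tsum 0 fun n _ => h0 n
    refine lt_of_lt_of_le ?_ h1
    norm_num
  have hγ : 0 < Real.eulerMascheroniConstant := by
    have := Real.one_half_lt_eulerMascheroniConstant
    linarith
  have hM1 : ∀ q : ℝ, M 1 q = Real.eulerMascheroniConstant + Real.log q :=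
    fun q => Pool.Agent.N743.SS.mom_one q
  have hM3 : M 3 1 = Real.eulerMascheroniConstant ^ 3 +
      Real.eulerMascheroniConstant * Real.pi ^ 2 / 2 + 2 * zeta3 := Pool.Agent.N743.SS.mom_three
  have hM11 : M 1 1 = Real.eulerMascheroniConstant := by rw [hM1, Real.log_one, add_zero]
  have part1 : ∀ t : ℝ, t ≠ 0 → ∀ (n : ℕ) (k : Fin n → ℤ), Function.Injective k →
      JointlyComplex fun i => t * Real.pi ^ k i := by
    intro t ht n k hk
    refine jointlyComplex _ fun i j hij => ?_
    exact Pool.Agent.R473.JC.joint_powers Real.pi Pool.Agent.TH456.TM.measT_pi t ht _ _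
      fun h => hij (hk h)
  refine ⟨⟨part1, ?_⟩, ?_, hM1, ?_, hM3, ?_⟩
  · have hk : Function.Injective (![0, -3] : Fin 2 → ℤ) := by
      intro i j h
      fin_cases i <;> fin_cases j <;> simp_all
    have h := part1 zeta3 hz3pos.ne' 2 ![0, -3] hk
    have e : (fun i => zeta3 * Real.pi ^ (![0, -3] : Fin 2 → ℤ) i) =
        ![zeta3, zeta3 / Real.pi ^ 3] := by
      funext i
      fin_cases i
      · simp
      · show zeta3 * Real.pi ^ (-3 : ℤ) = zeta3 / Real.pi ^ 3
        rw [div_eq_mul_inv]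
        congr 1
    rwa [e] at h
  · intro q l hq hl n b hb h0
    refine jointlyComplex _ fun i j hij => ?_
    exact Pool.Agent.N743.SS.joint_fam l hl q hq b hb h0 i j hij
  · rw [hM11]; exact hγ.ne'
  · rw [hM3]
    have := Real.pi_pos
    positivity

end Pool.Agent.Results.MP_e48a95_nt.DigitBlocks
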