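import Mathlib
import Pool.Agent.Q163.LE.Tr
import Pool.Agent.U664.LZ.EulerInd

set_option autoImplicit false

/-!
# `e`, Euler's constant, `ζ(3)` and the Gompertz numbers over fields of Liouville numbers

Call a field `F` of real numbers simultaneously Liouville if for any finitely many elements
`x_1, …, x_m` of `F` and any `w` there are arbitrarily large `q` with `‖q x_i‖ < q ^ (-w)` for all
`i`. Besides `ℚ` such fields are, for instance,

* for a sequence `T_n → ∞` the field of all real numbers `x` which for one `A` and for all `E` have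
  rational approximations of height at most `exp (A T_n)` with an error at most `exp (-E T_n)` for
  all large `n`;
* for an infinite set `S` of integers the field generated by all real numbers `x` whose first `N`
  digits in some base have a partition into `o (log N)` phrases (`N ∈ S`), each of which is a digit
  or a copy of a block which begins earlier.

For `l ≥ 1` and rational `x > 0` let `M_l(x) = ∫_0^∞ (log x - log t)^l e^(-t) dt`, so that
`M_1(x) = γ + log x`, `M_2(1) = γ² + π² / 6` and `M_3(1) = γ³ + γ π² / 2 + 2 ζ(3)`, and let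
`δ_l(x) = ∫_0^∞ log (1 + s / x)^l e^(-s) ds`; `δ_1(1)` is the Euler-Gompertz constant. Over every
simultaneously Liouville field `F`

* the number `e` and all values `E_l(x)`, `l ≥ 1`, `x > 0` rational, of the entire functions
  `E_l(x) = ∑_{m ≥ 1} (-1)^(m-1) x^m / (m! m^l)` are algebraically independent;
* for every finite set `P` of pairs `(l, x)` the numbers `M_l(x)` and `δ_l(x)`, `(l, x) ∈ P`,
  generate an extension of `F(e)` of transcendence degree at least `|P|`.
-/

namespace Pool.Agent.Results.MP_e48a95_nt.EulerOverLiouvilleFields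

open Filter Topology Set Pool.Agent.Q163.LE Pool.Agent.U664.LZ

/-- `ζ(3) = ∑ 1 / (n+1)^3` -/
noncomputable def zeta3 : ℝ := ∑' n : ℕ, 1 / ((n : ℝ) + 1) ^ 3

/-- the entire functions `E_l(x) = ∑_{m ≥ 1} (-1)^(m-1) x^m / (m! m^l)` -/
noncomputable def E (l : ℕ) (x : ℝ) : ℝ :=
  ∑' m : ℕ, -(-x) ^ (m + 1) / ((m + 1).factorial * ((m : ℝ) + 1) ^ l)

/-- the moments of the logarithm -/
noncomputable def M (l : ℕ) (x : ℝ) : ℝ :=
  ∫ t in Ioi (0 : ℝ), (Real.log x - Real.log t) ^ l * Real.exp (-t)

/-- the generalized Gompertz numbers -/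
noncomputable def δ (l : ℕ) (x : ℝ) : ℝ :=
  ∫ s in Ioi (0 : ℝ), Real.log (1 + s / x) ^ l * Real.exp (-s)

/-- the field generated by all real numbers `x` such that, for some base `b`,
`phrases b x N / log N` tends to `0` as `N` tends to infinity in `S` -/
noncomputable def field (S : Set ℕ) : Subfield ℝ := Subfield.closure {x : ℝ | ∃ b : ℕ, 2 ≤ b ∧
  Tendsto (fun N : ℕ => (phrases b x N : ℝ) / Real.log N) (atTop ⊓ 𝓟 S) (𝓝 0)}

section

variable {R : Type} [CommRing R] [IsDomain R] [Algebra R ℝ]

theorem alg_exp_rat (h : IsAlgebraic R (Real.exp 1)) (r : ℚ) :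
    IsAlgebraic R (Real.exp r) := by
  have h1 : Real.exp r ^ r.den = Real.exp (r.num : ℝ) := by
    rw [← Real.exp_nat_mul]
    congr 1
    have h2 : (r.den : ℝ) ≠ 0 := by exact_mod_cast r.den_nz
    have h3 : (r : ℝ) = (r.num : ℝ) / r.den := by exact_mod_cast (Rat.num_div_den r).symm
    rw [h3]
    field_simp
  have h5 : ∀ n : ℕ, IsAlgebraic R (Real.exp (n : ℝ)) := by
    intro n
    have e : Real.exp (n : ℝ) = Real.exp 1 ^ n := by
      rw [← Real.exp_nat_mul, mul_one]
    rw [e]
    exact h.pow n
  have h4 : IsAlgebraic R (Real.exp r ^ r.den) := by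
    rw [h1]
    rcases Int.eq_nat_or_neg r.num with ⟨n, hn | hn⟩
    · rw [hn, Int.cast_natCast]
      exact h5 n
    · rw [hn, Int.cast_neg, Int.cast_natCast, Real.exp_neg]
      exact (h5 n).inv
  exact h4.of_pow r.den_pos

theorem alg_E (h : IsAlgebraic R (Real.exp 1)) (l : ℕ) (x : ℚ) (hx : 0 < x)
    (h1 : IsAlgebraic R (M l x)) (h2 : IsAlgebraic R (δ l x)) : IsAlgebraic R (E l x) := by
  have hx' : (0 : ℝ) < x := by exact_mod_cast hx
  have h3 := Pool.Agent.N743.SS.rel l hx'
  have h4 : (l.factorial : ℝ) ≠ 0 := by exact_mod_cast l.factorial_ne_zero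
  have h5 : E l x = (l.factorial : ℝ)⁻¹ * (M l x - (-1) ^ l * (Real.exp ((-x : ℚ) : ℝ) * δ l x)) := by
    rw [eq_inv_mul_iff_mul_eq₀ h4, eq_sub_iff_add_eq]
    push_cast
    exact h3.symm
  rw [h5]
  exact (isAlgebraic_natCast _).inv.mul (h1.sub ((isAlgebraic_one.neg.pow l).mul
    ((alg_exp_rat h (-x)).mul h2)))

end

/-- algebraic over `F` implies algebraic over a ring that contains `F` -/
theorem alg_up {F : Subfield ℝ} (s : Set ℝ) {z : ℝ} (h : IsAlgebraic F z) :
    IsAlgebraic (Algebra.adjoin F s) z :=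
  h.extendScalars (algebraMap F (Algebra.adjoin F s)).injective

theorem mem_adjoin_alg {F : Subfield ℝ} {s : Set ℝ} {z : ℝ} (h : z ∈ s) :
    IsAlgebraic (Algebra.adjoin F s) z :=
  isAlgebraic_algebraMap (⟨z, Algebra.subset_adjoin h⟩ : Algebra.adjoin F s)

/-- the dimension count -/
theorem count {F : Subfield ℝ} (hF : SimLiouville F) (P : Finset (ℕ × ℚ))
    (hP : ∀ p ∈ P, 1 ≤ p.1 ∧ 0 < p.2) (n : ℕ) (y : Fin n → ℝ)
    (h : ∀ p ∈ P, IsAlgebraic (Algebra.adjoin F (insert (Real.exp 1) (range y)))
      (E p.1 (p.2 : ℝ))) : P.card ≤ n := by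
  classical
  set 𝓜 := AlgebraicIndependent.matroid F ℝ with hM
  let g : {p // p ∈ P} → Pr := fun p => ⟨p.1, hP p.1 p.2⟩
  have hg : Function.Injective g := by
    intro p p' hpp
    exact Subtype.ext (congrArg (fun a : Pr => a.1) hpp)
  have hind := (algInd_EE hF).comp (Option.map g) (Option.map_injective hg)
  obtain ⟨z, hz⟩ : ∃ z : Option {p // p ∈ P} → ℝ, z = fun o => o.elim (Real.exp 1)
    (fun p => E p.1.1 (p.1.2 : ℝ)) := ⟨_, rfl⟩
  have hind' : AlgebraicIndependent F z := by
    refine algInd_congr hind fun o => ?_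
    rw [hz]
    rcases o with _ | p <;> rfl
  have hI : 𝓜.Indep (range z) := by
    rw [hM, AlgebraicIndependent.matroid_indep_iff]
    exact hind'.coe_range
  have hsub : range z ⊆ 𝓜.closure (insert (Real.exp 1) (range y)) := by
    rintro _ ⟨o, rfl⟩
    rw [hM, AlgebraicIndependent.matroid_closure_eq, hz]
    rcases o with _ | p
    · exact mem_adjoin_alg (mem_insert _ _)
    · exact h p.1 p.2
  have hcard : (range z).encard = P.card + 1 := by
    rw [← image_univ, (hind'.injective).encard_image, encard_univ]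
    simp
  have h1 := hI.encard_le_eRk_of_subset hsub
  rw [Matroid.eRk_closure_eq, hcard] at h1
  have h2 : (insert (Real.exp 1) (range y)).encard ≤ n + 1 := by
    refine (encard_insert_le _ _).trans ?_
    gcongr
    rw [← image_univ]
    refine (encard_image_le _ _).trans ?_
    rw [encard_univ]
    simp
  have h3 := h1.trans ((𝓜.eRk_le_encard _).trans h2)
  have h4 : P.card + 1 ≤ n + 1 := by exact_mod_cast h3
  omega

/-- **`e`, Euler's constant, `ζ(3)` and the Gompertz numbers over simultaneously Liouville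
fields.** -/
theorem result :
    -- examples of such fields
    (∀ (T : ℕ → ℝ) (hT : Tendsto T atTop atTop), SimLiouville (ApField T hT)) ∧
    (∀ S : Set ℕ, S.Infinite → SimLiouville (field S)) ∧
    ∀ F : Subfield ℝ, SimLiouville F →
      -- (1) `e` and all numbers `E_l(x)` are algebraically independent over `F`
      AlgebraicIndependent F (fun o : Option {p : ℕ × ℚ // 1 ≤ p.1 ∧ 0 < p.2} =>
        o.elim (Real.exp 1) (fun p => E p.1.1 (p.1.2 : ℝ))) ∧
      -- (2) if `M_l(x)` and `δ_l(x)`, `(l, x) ∈ P`, are algebraic over `F(e, y_1, …, y_n)`, then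
      -- `|P| ≤ n`
      (∀ P : Finset (ℕ × ℚ), (∀ p ∈ P, 1 ≤ p.1 ∧ 0 < p.2) → ∀ (n : ℕ) (y : Fin n → ℝ),
        (∀ p ∈ P, IsAlgebraic (Algebra.adjoin F (insert (Real.exp 1) (range y))) (M p.1 p.2) ∧
          IsAlgebraic (Algebra.adjoin F (insert (Real.exp 1) (range y))) (δ p.1 p.2)) →
        P.card ≤ n) ∧
      -- (3) `M_l(x)` or `δ_l(x)` is transcendental over `F(e)`
      (∀ (l : ℕ) (x : ℚ), 1 ≤ l → 0 < x →
        Transcendental (Algebra.adjoin F {Real.exp 1}) (M l x) ∨
          Transcendental (Algebra.adjoin F {Real.exp 1}) (δ l x)) ∧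
      (Transcendental (Algebra.adjoin F {Real.exp 1}) Real.eulerMascheroniConstant ∨
        Transcendental (Algebra.adjoin F {Real.exp 1}) (δ 1 1)) ∧
      -- (4) all numbers `e^r M_l(x)`, `e^s δ_l(x)`, `r, s ∈ ℚ`, with at most one exception, are
      -- transcendental over `F` (if `M_l(x) ≠ 0`)
      (∀ (l : ℕ) (x : ℚ), 1 ≤ l → 0 < x → M l x ≠ 0 → ∀ i j : Bool × ℚ, i ≠ j →
        Transcendental F (Real.exp i.2 * (if i.1 then M l x else δ l x)) ∨
          Transcendental F (Real.exp j.2 * (if j.1 then M l x else δ l x))) ∧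
      -- (5) at least three of the numbers `γ, π, ζ(3), δ_1(1), δ_2(1), δ_3(1)` are algebraically
      -- independent over `F(e)`
      (∀ (n : ℕ) (y : Fin n → ℝ), (∀ z ∈ ({Real.eulerMascheroniConstant, Real.pi, zeta3, δ 1 1,
          δ 2 1, δ 3 1} : Set ℝ), IsAlgebraic (Algebra.adjoin F (insert (Real.exp 1) (range y))) z) →
        3 ≤ n) := by
  refine ⟨sim_apField, sim_lz, fun F hF => ?_⟩
  have he : ∀ s : Set ℝ, IsAlgebraic (Algebra.adjoin F (insert (Real.exp 1) s)) (Real.exp 1) :=
    fun s => mem_adjoin_alg (mem_insert _ _)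
  have h2 : ∀ P : Finset (ℕ × ℚ), (∀ p ∈ P, 1 ≤ p.1 ∧ 0 < p.2) → ∀ (n : ℕ) (y : Fin n → ℝ),
        (∀ p ∈ P, IsAlgebraic (Algebra.adjoin F (insert (Real.exp 1) (range y))) (M p.1 p.2) ∧
          IsAlgebraic (Algebra.adjoin F (insert (Real.exp 1) (range y))) (δ p.1 p.2)) →
        P.card ≤ n := by
    intro P hP n y h
    exact count hF P hP n y fun p hp => alg_E (he _) p.1 p.2 (hP p hp).2 (h p hp).1 (h p hp).2
  have h3 : ∀ (l : ℕ) (x : ℚ), 1 ≤ l → 0 < x →
        Transcendental (Algebra.adjoin F {Real.exp 1}) (M l x) ∨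
          Transcendental (Algebra.adjoin F {Real.exp 1}) (δ l x) := by
    intro l x hl hx
    by_contra hcon
    unfold Transcendental at hcon
    push Not at hcon
    have h := h2 {(l, x)} (by simpa using ⟨hl, hx⟩) 0 (fun i => i.elim0) (by
      intro p hp
      rw [Finset.mem_singleton] at hp
      rw [hp]
      have e1 : insert (Real.exp 1) (range (fun i : Fin 0 => (i.elim0 : ℝ))) = {Real.exp 1} := by
        rw [range_eq_empty, insert_empty_eq]
      rw [e1]
      exact hcon)
    simp at h
  have hexp : Transcendental F (Real.exp 1) := by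
    have h := algInd_EE hF
    rw [AlgebraicIndependent.option_iff] at h
    exact fun h0 => h.2 (alg_up _ h0)
  have hrat : ∀ r : ℚ, r ≠ 0 → Transcendental F (Real.exp r) := by
    intro r hr h0
    apply hexp
    obtain ⟨a, ha⟩ : ∃ a : ℕ, a = r.num.natAbs := ⟨_, rfl⟩
    have hnum : r.num ≠ 0 := Rat.num_ne_zero.2 hr
    have ha1 : 0 < a := by omega
    have h2 : (r.den : ℝ) ≠ 0 := by exact_mod_cast r.den_nz
    have h4 : (r : ℝ) = (r.num : ℝ) / r.den := by exact_mod_cast (Rat.num_div_den r).symm
    have h5 : Real.exp r ^ r.den = Real.exp (r.num : ℝ) := by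
      rw [← Real.exp_nat_mul]
      congr 1
      rw [h4]
      field_simp
    have h6 : IsAlgebraic F (Real.exp (r.num : ℝ)) := by
      rw [← h5]
      exact h0.pow _
    have h7 : IsAlgebraic F (Real.exp 1 ^ a) := by
      rw [← Real.exp_nat_mul, mul_one]
      rcases Int.natAbs_eq r.num with h8 | h8
      · rw [h8, Int.cast_natCast, ← ha] at h6
        exact h6
      · rw [h8, Int.cast_neg, Int.cast_natCast, ← ha, Real.exp_neg] at h6
        have h9 := h6.inv
        rwa [inv_inv] at h9
    exact h7.of_pow ha1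
  have hM1 : M 1 1 = Real.eulerMascheroniConstant := by
    have := Pool.Agent.N743.SS.mom_one 1
    rw [Real.log_one, add_zero] at this
    exact this
  refine ⟨algInd_EE hF, h2, h3, ?_, ?_, ?_⟩
  · have h := h3 1 1 le_rfl one_pos
    rw [Rat.cast_one, hM1] at h
    exact h
  · intro l x hl hx hM i j hij
    by_contra hcon
    unfold Transcendental at hcon
    push Not at hcon
    obtain ⟨hi, hj⟩ := hcon
    -- two numbers of the same kind
    have same : ∀ (z : ℝ), z ≠ 0 → ∀ r s : ℚ, r ≠ s → IsAlgebraic F (Real.exp r * z) →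
        IsAlgebraic F (Real.exp s * z) → False := by
      intro z hz r s hrs h1 h2
      apply hrat (r - s) (sub_ne_zero.2 hrs)
      have e : Real.exp ((r - s : ℚ) : ℝ) = (Real.exp r * z) * (Real.exp s * z)⁻¹ := by
        push_cast
        rw [Real.exp_sub, mul_inv, div_eq_mul_inv]
        have := (Real.exp_pos s).ne'
        field_simp
      rw [e]
      exact h1.mul h2.inv
    -- two numbers of different kinds
    have cross : ∀ r s : ℚ, IsAlgebraic F (Real.exp r * M l x) →
        IsAlgebraic F (Real.exp s * δ l x) → False := by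
      intro r s h1 h2
      have hup : ∀ (r : ℚ) (z : ℝ), IsAlgebraic F (Real.exp r * z) →
          IsAlgebraic (Algebra.adjoin F {Real.exp 1}) z := by
        intro r z h
        have e : z = Real.exp ((-r : ℚ) : ℝ) * (Real.exp r * z) := by
          rw [← mul_assoc, ← Real.exp_add]
          push_cast
          rw [neg_add_cancel, Real.exp_zero, one_mul]
        rw [e]
        have he1 : IsAlgebraic (Algebra.adjoin F {Real.exp 1}) (Real.exp 1) :=
          mem_adjoin_alg (mem_singleton _)
        exact (alg_exp_rat he1 (-r)).mul (alg_up _ h)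
      rcases h3 l x hl hx with h | h
      · exact h (hup r _ h1)
      · exact h (hup s _ h2)
    have hδ : δ l x ≠ 0 := (Pool.Agent.N743.SS.gom_pos l (by exact_mod_cast hx)).ne'
    obtain ⟨si, ki⟩ := i
    obtain ⟨sj, kj⟩ := j
    cases si <;> cases sj
    · exact same _ hδ ki kj (fun h => hij (by rw [h])) hi hj
    · exact cross kj ki hj hi
    · exact cross ki kj hi hj
    · exact same _ hM ki kj (fun h => hij (by rw [h])) hi hj
  · intro n y h
    have hγ := h Real.eulerMascheroniConstant (by simp)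
    have hπ := h Real.pi (by simp)
    have hζ := h zeta3 (by simp)
    have alg_nat : ∀ k : ℕ, IsAlgebraic (Algebra.adjoin F (insert (Real.exp 1) (range y)))
        (k : ℝ) := fun k => isAlgebraic_natCast k
    have h1 := h2 {(1, 1), (2, 1), (3, 1)} (by
      intro p hp
      simp only [Finset.mem_insert, Finset.mem_singleton] at hp
      rcases hp with rfl | rfl | rfl <;> norm_num) n y (by
      intro p hp
      simp only [Finset.mem_insert, Finset.mem_singleton] at hp
      rcases hp with rfl | rfl | rfl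
      · refine ⟨?_, by simpa using h (δ 1 1) (by simp)⟩
        rw [Rat.cast_one, hM1]
        exact hγ
      · refine ⟨?_, by simpa using h (δ 2 1) (by simp)⟩
        have e : M 2 1 = Real.eulerMascheroniConstant ^ 2 + Real.pi ^ 2 * (6 : ℝ)⁻¹ := by
          have e1 := Pool.Agent.N743.SS.mom_eq 2 1
          rw [Pool.Agent.R352.E.NN_two, Real.log_one, add_zero] at e1
          have e2 : M 2 1 = Pool.Agent.N743.SS.mom 2 1 := rfl
          rw [e2, e1]
          ring
        rw [Rat.cast_one, e]
        exact (hγ.pow 2).add ((hπ.pow 2).mul (alg_nat 6).inv)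
      · refine ⟨?_, by simpa using h (δ 3 1) (by simp)⟩
        have e : M 3 1 = Real.eulerMascheroniConstant ^ 3 +
            Real.eulerMascheroniConstant * Real.pi ^ 2 * (2 : ℝ)⁻¹ + 2 * zeta3 := by
          have e2 : M 3 1 = Pool.Agent.N743.SS.mom 3 1 := rfl
          rw [e2, Pool.Agent.N743.SS.mom_three]
          rfl
        rw [Rat.cast_one, e]
        exact ((hγ.pow 3).add ((hγ.mul (hπ.pow 2)).mul (alg_nat 2).inv)).add
          ((alg_nat 2).mul hζ))
    simpa using h1

end Pool.Agent.Results.MP_e48a95_nt.EulerOverLiouvilleFields
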