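import Pool.Agent.N743.SS.Gomp
import Pool.Agent.R473.JC.Final

/-!
# Algebraic relations between the digits of `ζ(3)`, `ζ(3) / π³`, `γ` and related numbers

`S(X) = s_1 X + ⋯ + s_L X^L`, where the `s_i` are the digits of a real number `x` in base `b` after
at most `K` of them have been changed.  The `K`-error algebraic complexity `N_b(x) = N_b(x; r, K, L)`
is the least `k` such that `X^(L+1)` divides `P(X, S(X))` for some nonzero polynomial `P(X, Y)` of
degree at most `r` in `Y` and at most `k` in `X` and some such choice of `S`; for `r = 1` this is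
essentially the linear complexity.

Let `u` and `v` be two different members of one of the families

* `t π^k`, `k ∈ ℤ`, where `t ≠ 0` is a real number (`ζ(3)` and `ζ(3) / π³` for `t = ζ(3)`),
* `e^(jq) M_l(q)`, `e^(kq) δ_l(q)`, `j, k ∈ ℤ`, where `q > 0` is rational, `l ≥ 1` and
  `M_l(q) = ∫_0^∞ (log q - log t)^l e^(-t) dt ≠ 0`, `δ_l(q) = ∫_0^∞ log (1 + s / q)^l e^(-s) ds`;
  here `M_1(1) = γ`, `M_3(1) = γ³ + γ π² / 2 + 2 ζ(3)`, and `δ_1(1)` is the Euler-Gompertz constant.

Then `u` and `v` cannot both have digits of low algebraic complexity, where two different bases, two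
different lengths and two different numbers of errors are allowed. For instance for every `r` there is
`c > 0` such that for all bases `b`, all `K` and all `L`
`c^(K+1) L ≤ N_b(ζ(3)) + N_b(ζ(3) / π³) + 2` and `c^(K+1) L ≤ N_b(γ) + N_b(δ_1(1)) + 2`.

The proof combines theorems of the starting library: the joint measures for these families
(`Pool.Agent.N743.SS.joint_fam`, which uses Shidlovskii's theorem in a quantitative form, and
`Pool.Agent.R473.JC.joint_powers`, which uses the transcendence measure of `π`) and the estimate for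
the digits of two numbers with a joint measure (`Pool.Agent.R473.JC.family`).
-/

set_option autoImplicit false

namespace Pool.Agent.Results.MP_e48a95_nt.JointAlgebraicComplexity

open Finset Polynomial MeasureTheory Set
open Pool.Agent.R356 (JointR)

/-- `ζ(3) = ∑ 1 / (n + 1)^3` -/
noncomputable def zeta3 : ℝ := ∑' n : ℕ, 1 / ((n : ℝ) + 1) ^ 3

/-- `M_l(q) = ∫_0^∞ (log q - log t)^l e^(-t) dt` -/
noncomputable def M (l : ℕ) (q : ℝ) : ℝ :=
  ∫ t in Ioi (0 : ℝ), (Real.log q - Real.log t) ^ l * Real.exp (-t)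

/-- `δ_l(q) = ∫_0^∞ log (1 + s / q)^l e^(-s) ds` -/
noncomputable def δ (l : ℕ) (q : ℝ) : ℝ :=
  ∫ s in Ioi (0 : ℝ), Real.log (1 + s / q) ^ l * Real.exp (-s)

/-- the numbers `e^(j q) M_l(q)` (indexed by `(true, j)`) and `e^(j q) δ_l(q)` (indexed by
`(false, j)`) -/
noncomputable def fam (l : ℕ) (q : ℝ) (p : Bool × ℤ) : ℝ :=
  Real.exp (p.2 * q) * (if p.1 then M l q else δ l q)

/-- the `i`-th digit of `x` after the point in base `b` -/
noncomputable def digit (b : ℕ) (x : ℝ) (i : ℕ) : ℤ := ⌊x * (b : ℝ) ^ i⌋ % (b : ℤ)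

/-- the polynomial `s_1 X + s_2 X^2 + ⋯ + s_L X^L` -/
noncomputable def seqPoly (s : ℕ → ℤ) (L : ℕ) : ℚ[X] :=
  ∑ l ∈ Finset.Icc 1 L, C (s l : ℚ) * X ^ l

/-- `s` is a sequence of base `b` digits, and among the places `1, …, L` at most `K` are such that
`s_l` is not the `l`-th digit of `x` -/
def Near (b : ℕ) (x : ℝ) (K L : ℕ) (s : ℕ → ℤ) : Prop :=
  (∀ l, 0 ≤ s l ∧ s l < b) ∧ {l : ℕ | 1 ≤ l ∧ l ≤ L ∧ s l ≠ digit b x l}.ncard ≤ K

/-- there is a nonzero polynomial `P(X, Y)` over `ℚ` of degree `≤ r` in `Y` and `≤ k` in `X` such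
that `P(X, S(X))` is divisible by `X^(L+1)`, where `S` is the polynomial of the first `L` terms
of `s` -/
def AlgRelation (s : ℕ → ℤ) (r L k : ℕ) : Prop :=
  ∃ P : ℚ[X][X], P ≠ 0 ∧ P.natDegree ≤ r ∧ (∀ j, (P.coeff j).natDegree ≤ k) ∧
    X ^ (L + 1) ∣ P.eval (seqPoly s L)

/-- the `K`-error algebraic complexity of degree `r` of the first `L` digits of `x` in base `b` -/
noncomputable def complexity (b : ℕ) (x : ℝ) (r K L : ℕ) : ℕ :=
  sInf {k : ℕ | ∃ s, Near b x K L s ∧ AlgRelation s r L k}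

/-- the joint lower bound for the digits of `u` and `v` in degree `r`, with the constant `A`, in all
pairs of bases, for all lengths and all numbers of errors -/
def Bound (A : ℝ) (r : ℕ) (u v : ℝ) : Prop :=
  ∀ b b' : ℕ, 2 ≤ b → 2 ≤ b' → ∀ K K' L L' : ℕ,
    min (L * Real.log b) (L' * Real.log b') ≤
      A ^ (K + K' + 1) * ((complexity b u r K L + 1) * Real.log b +
        (complexity b' v r K' L' + 1) * Real.log b')

/-- the case of one base, one length and one number of errors -/
lemma one_base (u v A : ℝ) (hA : 1 ≤ A) (r : ℕ) (h : Bound A r u v) (b : ℕ) (hb : 2 ≤ b)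
    (K L : ℕ) : (1 / A ^ 2) ^ (K + 1) * (L : ℝ) ≤
      complexity b u r K L + complexity b v r K L + 2 := by
  have hl : 0 < Real.log b := Real.log_pos (by exact_mod_cast (by omega : 1 < b))
  have hA0 : 0 < A := by linarith
  have h1 := h b b hb hb K K L L
  rw [min_self] at h1
  have h2 : (L : ℝ) ≤ A ^ (K + K + 1) * (complexity b u r K L + complexity b v r K L + 2) := by
    have h3 : (L : ℝ) * Real.log b ≤
        (A ^ (K + K + 1) * (complexity b u r K L + complexity b v r K L + 2)) * Real.log b := by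
      linarith
    exact le_of_mul_le_mul_right h3 hl
  have h4 : A ^ (K + K + 1) ≤ (A ^ 2) ^ (K + 1) := by
    rw [← pow_mul]
    exact pow_le_pow_right₀ hA (by omega)
  rw [div_pow, one_pow, div_mul_eq_mul_div, one_mul, div_le_iff₀ (by positivity)]
  calc (L : ℝ) ≤ A ^ (K + K + 1) * (complexity b u r K L + complexity b v r K L + 2) := h2
    _ ≤ (A ^ 2) ^ (K + 1) * (complexity b u r K L + complexity b v r K L + 2) :=
        mul_le_mul_of_nonneg_right h4 (by positivity)
    _ = _ := by ring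

/-- **Joint algebraic complexity of the digits.**

(1) For every real `t ≠ 0`, every finite set of distinct numbers `t π^k`, `k ∈ ℤ`, and every `r` there
is `A ≥ 1` such that for any two of them, all bases `β, β'`, all lengths `L, L'` and all numbers of
errors `K, K'`: `min (L log β, L' log β') ≤ A^(K+K'+1) ((N + 1) log β + (N' + 1) log β')`.

(2) The same for rational `q > 0` and `l ≥ 1` and every finite family of numbers `e^(jq) M_l(q)` and
`e^(kq) δ_l(q)` with distinct indices, provided that `M_l(q) ≠ 0` or at most one of the numbers is of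
the first kind. Here `M_1(q) = γ + log q` and `M_3(1) = γ³ + γ π² / 2 + 2 ζ(3) ≠ 0`.

(3) For every `r` there is `c > 0` such that for all bases `b ≥ 2`, all `K` and all `L`
`c^(K+1) L ≤ N_b(ζ(3); r, K, L) + N_b(ζ(3) / π³; r, K, L) + 2` and
`c^(K+1) L ≤ N_b(γ; r, K, L) + N_b(δ_1(1); r, K, L) + 2`. -/
theorem result :
    (∀ t : ℝ, t ≠ 0 → ∀ (n : ℕ) (k : Fin n → ℤ), Function.Injective k →
      ∀ r : ℕ, ∃ A : ℝ, 1 ≤ A ∧ ∀ i j, i ≠ j → Bound A r (t * Real.pi ^ k i) (t * Real.pi ^ k j)) ∧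
    ((∀ (q : ℚ) (l : ℕ), 0 < q → 1 ≤ l → ∀ (n : ℕ) (b : Fin n → Bool × ℤ), Function.Injective b →
        (M l q ≠ 0 ∨ ∀ i i', (b i).1 = true → (b i').1 = true → i = i') →
        ∀ r : ℕ, ∃ A : ℝ, 1 ≤ A ∧ ∀ i j, i ≠ j → Bound A r (fam l q (b i)) (fam l q (b j))) ∧
      (∀ q : ℝ, M 1 q = Real.eulerMascheroniConstant + Real.log q) ∧
      M 3 1 = Real.eulerMascheroniConstant ^ 3 + Real.eulerMascheroniConstant * Real.pi ^ 2 / 2 +
        2 * zeta3 ∧ M 3 1 ≠ 0) ∧
    (∀ r : ℕ, ∃ c : ℝ, 0 < c ∧ ∀ b : ℕ, 2 ≤ b → ∀ K L : ℕ,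
      c ^ (K + 1) * L ≤ complexity b zeta3 r K L + complexity b (zeta3 / Real.pi ^ 3) r K L + 2 ∧
      c ^ (K + 1) * L ≤ complexity b Real.eulerMascheroniConstant r K L +
        complexity b (δ 1 1) r K L + 2) := by
  have hz3pos : 0 < zeta3 := by
    unfold zeta3
    have hs : Summable fun n : ℕ => 1 / ((n : ℝ) + 1) ^ 3 := by
      have h := (summable_nat_add_iff 1).2 (Real.summable_one_div_nat_pow.2 (by norm_num : 1 < 3))
      refine h.congr fun n => ?_
      push_cast
      rfl
    have h0 : ∀ n : ℕ, 0 ≤ 1 / ((n : ℝ) + 1) ^ 3 := fun n => by positivity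
    have h1 := hs.le_tsum 0 fun n _ => h0 n
    refine lt_of_lt_of_le ?_ h1
    norm_num
  have hγ : 0 < Real.eulerMascheroniConstant := by
    have := Real.one_half_lt_eulerMascheroniConstant
    linarith
  have hM1 : ∀ q : ℝ, M 1 q = Real.eulerMascheroniConstant + Real.log q :=
    fun q => Pool.Agent.N743.SS.mom_one q
  have hM3 : M 3 1 = Real.eulerMascheroniConstant ^ 3 +
      Real.eulerMascheroniConstant * Real.pi ^ 2 / 2 + 2 * zeta3 := Pool.Agent.N743.SS.mom_three
  have hM11 : M 1 1 = Real.eulerMascheroniConstant := by rw [hM1, Real.log_one, add_zero]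
  have part1 : ∀ t : ℝ, t ≠ 0 → ∀ (n : ℕ) (k : Fin n → ℤ), Function.Injective k →
      ∀ r : ℕ, ∃ A : ℝ, 1 ≤ A ∧ ∀ i j, i ≠ j →
        Bound A r (t * Real.pi ^ k i) (t * Real.pi ^ k j) := by
    intro t ht n k hk r
    exact Pool.Agent.R473.JC.family (fun i => t * Real.pi ^ k i) (fun i j hij =>
      Pool.Agent.R473.JC.joint_powers Real.pi Pool.Agent.TH456.TM.measT_pi t ht _ _
        fun h => hij (hk h)) r
  have part2 : ∀ (q : ℚ) (l : ℕ), 0 < q → 1 ≤ l → ∀ (n : ℕ) (b : Fin n → Bool × ℤ),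
      Function.Injective b →
      (M l q ≠ 0 ∨ ∀ i i', (b i).1 = true → (b i').1 = true → i = i') →
      ∀ r : ℕ, ∃ A : ℝ, 1 ≤ A ∧ ∀ i j, i ≠ j → Bound A r (fam l q (b i)) (fam l q (b j)) := by
    intro q l hq hl n b hb h0 r
    exact Pool.Agent.R473.JC.family (fun i => fam l q (b i)) (fun i j hij =>
      Pool.Agent.N743.SS.joint_fam l hl q hq b hb h0 i j hij) r
  refine ⟨part1, ⟨part2, hM1, hM3, ?_⟩, fun r => ?_⟩
  · rw [hM3]
    have := Real.pi_pos
    positivity
  · -- the pair `ζ(3)`, `ζ(3) / π³`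
    have hk : Function.Injective (![0, -3] : Fin 2 → ℤ) := by
      intro i j h
      fin_cases i <;> fin_cases j <;> simp_all
    obtain ⟨A, hA, h⟩ := part1 zeta3 hz3pos.ne' 2 ![0, -3] hk r
    have h01 := h 0 1 (by decide)
    have e0 : zeta3 * Real.pi ^ (![0, -3] : Fin 2 → ℤ) 0 = zeta3 := by simp
    have e1 : zeta3 * Real.pi ^ (![0, -3] : Fin 2 → ℤ) 1 = zeta3 / Real.pi ^ 3 := by
      rw [div_eq_mul_inv]
      congr 1
    rw [e0, e1] at h01
    -- the pair `γ`, `δ`
    have hb : Function.Injective (![(true, 0), (false, 0)] : Fin 2 → Bool × ℤ) := by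
      intro i j h
      fin_cases i <;> fin_cases j <;> simp_all
    have h11 : M 1 ((1 : ℚ) : ℝ) ≠ 0 := by
      rw [Rat.cast_one, hM11]
      exact hγ.ne'
    obtain ⟨B, hB, h'⟩ := part2 1 1 one_pos le_rfl 2 ![(true, 0), (false, 0)] hb
      (Or.inl h11) r
    have h01' := h' 0 1 (by decide)
    have e2 : fam 1 ((1 : ℚ) : ℝ) ((![(true, 0), (false, 0)] : Fin 2 → Bool × ℤ) 0) =
        Real.eulerMascheroniConstant := by
      simp only [fam, Matrix.cons_val_zero, Int.cast_zero, zero_mul, Real.exp_zero, one_mul,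
        if_true, Rat.cast_one]
      exact hM11
    have e3 : fam 1 ((1 : ℚ) : ℝ) ((![(true, 0), (false, 0)] : Fin 2 → Bool × ℤ) 1) = δ 1 1 := by
      simp [fam]
    rw [e2, e3] at h01'
    have hmax : 1 ≤ max A B := le_max_of_le_left hA
    have hA0 : 0 < A := by linarith
    have hB0 : 0 < B := by linarith
    have hm0 : 0 < max A B := by linarith
    refine ⟨1 / (max A B) ^ 2, by positivity, fun b hb K L => ⟨?_, ?_⟩⟩
    · refine le_trans ?_ (one_base _ _ A hA r h01 b hb K L)
      have : (1 / (max A B) ^ 2) ≤ 1 / A ^ 2 := by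
        have := le_max_left A B
        gcongr
      have h0 : (0 : ℝ) ≤ 1 / (max A B) ^ 2 := by positivity
      gcongr
    · refine le_trans ?_ (one_base _ _ B hB r h01' b hb K L)
      have : (1 / (max A B) ^ 2) ≤ 1 / B ^ 2 := by
        have := le_max_right A B
        gcongr
      have h0 : (0 : ℝ) ≤ 1 / (max A B) ^ 2 := by positivity
      gcongr

end Pool.Agent.Results.MP_e48a95_nt.JointAlgebraicComplexity
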